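import Mathlib

set_option autoImplicit false
open CategoryTheory MonoidalCategory

namespace Pool.Agent.Helper886.SR

section abstractpart

variable {H : Type*} [Group H] [Fintype H] {E : Type*} [AddCommGroup E] [Module ℂ E]

theorem comm_of_symm (σ : H →* Module.End ℂ E) (c : ℂ) (hc : c ≠ 0)
    (hS : ∀ X : Module.End ℂ E, ∑ h : H, (LinearMap.trace ℂ E (X * σ h⁻¹)) • σ h = c • X)
    (A B : Module.End ℂ E)
    (hA : ∀ h, LinearMap.trace ℂ E (A * σ h⁻¹) = LinearMap.trace ℂ E (A * σ h))
    (hB : ∀ h, LinearMap.trace ℂ E (B * σ h⁻¹) = LinearMap.trace ℂ E (B * σ h))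
    (hBA : ∀ h, LinearMap.trace ℂ E (B * A * σ h⁻¹) = LinearMap.trace ℂ E (B * A * σ h)) :
    A * B = B * A := by
  have key : ∀ X Y : Module.End ℂ E, ∀ z : H, c * LinearMap.trace ℂ E (X * Y * σ z) =
      ∑ h : H, LinearMap.trace ℂ E (X * σ h⁻¹) * LinearMap.trace ℂ E (Y * σ (z * h)) := by
    intro X Y z
    have h1 : c * LinearMap.trace ℂ E (X * Y * σ z) = LinearMap.trace ℂ E ((c • X) * (Y * σ z)) := by
      rw [smul_mul_assoc, map_smul, smul_eq_mul, mul_assoc]
    rw [h1, ← hS X, Finset.sum_mul, map_sum]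
    refine Finset.sum_congr rfl fun h _ => ?_
    rw [smul_mul_assoc, map_smul, smul_eq_mul, LinearMap.trace_mul_comm ℂ (σ h) (Y * σ z), mul_assoc Y,
      ← map_mul σ]
  have heq : ∀ z : H, LinearMap.trace ℂ E (A * B * σ z) = LinearMap.trace ℂ E (B * A * σ z⁻¹) := by
    intro z
    have h1 := key A B z
    have h2 := key B A z⁻¹
    have h3 : ∑ h : H, LinearMap.trace ℂ E (B * σ h⁻¹) * LinearMap.trace ℂ E (A * σ (z⁻¹ * h)) =
        ∑ h : H, LinearMap.trace ℂ E (A * σ h⁻¹) * LinearMap.trace ℂ E (B * σ (z * h)) := by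
      rw [← Equiv.sum_comp (Equiv.mulLeft z)]
      refine Finset.sum_congr rfl fun h _ => ?_
      simp only [Equiv.coe_mulLeft, inv_mul_cancel_left]
      rw [hB, hA h, mul_comm]
    rw [h3, ← h1] at h2
    exact (mul_left_cancel₀ hc h2).symm
  have h4 : c • (A * B) = c • (B * A) := by
    rw [← hS, ← hS]
    refine Finset.sum_congr rfl fun h _ => ?_
    rw [heq, ← hBA, inv_inv]
  exact smul_right_injective _ hc h4

/-- The Burnside/Schur expansion property. -/
def Expands (σ : H →* Module.End ℂ E) (c : ℂ) : Prop :=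
  ∀ X : Module.End ℂ E, ∑ h : H, (LinearMap.trace ℂ E (X * σ h⁻¹)) • σ h = c • X

theorem expands_of_schur [FiniteDimensional ℂ E] [Nontrivial E] (σ : H →* Module.End ℂ E)
    (hsch : ∀ f : Module.End ℂ E, (∀ g, f * σ g = σ g * f) → ∃ c : ℂ, f = c • (1 : Module.End ℂ E)) :
    Expands σ ((Fintype.card H : ℂ) / (Module.finrank ℂ E : ℂ)) := by
  have hd : (Module.finrank ℂ E : ℂ) ≠ 0 := by
    exact_mod_cast (Module.finrank_pos (R := ℂ) (M := E)).ne'
  -- rank one averages
  have h1 : ∀ (φ : E →ₗ[ℂ] ℂ) (v w : E), ∑ g : H, φ (σ g⁻¹ w) • σ g v =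
      ((Fintype.card H : ℂ) / (Module.finrank ℂ E : ℂ)) • φ v • w := by
    intro φ v w
    set A : Module.End ℂ E := φ.smulRight v with hA
    obtain ⟨c, hc⟩ := hsch (∑ g : H, σ g * A * σ g⁻¹) (by
      intro k
      rw [Finset.sum_mul, Finset.mul_sum, ← Equiv.sum_comp (Equiv.mulLeft k)]
      refine Finset.sum_congr rfl fun g _ => ?_
      simp only [Equiv.coe_mulLeft, mul_inv_rev, map_mul]
      have : σ k⁻¹ * σ k = 1 := by rw [← map_mul, inv_mul_cancel, map_one]
      simp only [mul_assoc, this, mul_one])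
    have htr : c * (Module.finrank ℂ E : ℂ) = (Fintype.card H : ℂ) * φ v := by
      have h2 := congrArg (LinearMap.trace ℂ E) hc
      rw [map_sum, map_smul, LinearMap.trace_one, smul_eq_mul] at h2
      rw [← h2]
      have h3 : ∀ g : H, LinearMap.trace ℂ E (σ g * A * σ g⁻¹) = φ v := by
        intro g
        rw [LinearMap.trace_mul_comm, ← mul_assoc, ← map_mul, inv_mul_cancel, map_one, one_mul, hA,
          LinearMap.trace_smulRight]
      rw [Finset.sum_congr rfl fun g _ => h3 g]
      simp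
    have h4 := congrArg (fun f : Module.End ℂ E => f w) hc
    simp only [LinearMap.sum_apply, Module.End.mul_apply, LinearMap.smul_apply, Module.End.one_apply, hA,
      LinearMap.smulRight_apply, map_smul] at h4
    rw [h4, smul_smul]
    congr 1
    field_simp
    linear_combination htr
  intro X
  -- expand X in rank one operators
  let b := Module.finBasis ℂ E
  have hX : X = ∑ i, (b.coord i).smulRight (X (b i)) := by
    refine b.ext fun j => ?_
    simp [LinearMap.sum_apply, Finsupp.single_apply]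
  have hlin : ∀ (s : Finset (Fin (Module.finrank ℂ E))),
      ∑ h : H, (LinearMap.trace ℂ E ((∑ i ∈ s, (b.coord i).smulRight (X (b i)) : Module.End ℂ E) * σ h⁻¹)) • σ h =
      ((Fintype.card H : ℂ) / (Module.finrank ℂ E : ℂ)) •
        (∑ i ∈ s, (b.coord i).smulRight (X (b i)) : Module.End ℂ E) := by
    intro s
    rw [Finset.smul_sum]
    simp only [Finset.sum_mul, map_sum, Finset.sum_smul]
    rw [Finset.sum_comm]
    refine Finset.sum_congr rfl fun i _ => ?_
    ext v
    simp only [LinearMap.sum_apply, LinearMap.smul_apply, LinearMap.smulRight_apply]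
    rw [← h1 (b.coord i) v (X (b i))]
    refine Finset.sum_congr rfl fun g _ => ?_
    congr 1
    have : (b.coord i).smulRight (X (b i)) * σ g⁻¹ = ((b.coord i) ∘ₗ (σ g⁻¹)).smulRight (X (b i)) := by
      ext u; simp [Module.End.mul_apply]
    rw [this, LinearMap.trace_smulRight]
    rfl
  have := hlin Finset.univ
  rw [← hX] at this
  exact this

end abstractpart

section tensorpart

open scoped TensorProduct

variable {G : Type*} [Group G] [Fintype G] {V W : Type*} [AddCommGroup V] [Module ℂ V] [FiniteDimensional ℂ V]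
  [AddCommGroup W] [Module ℂ W] [FiniteDimensional ℂ W]

/-- The outer tensor product. -/
noncomputable def outer (ρ : G →* Module.End ℂ V) (τ : G →* Module.End ℂ W) :
    G × G →* Module.End ℂ (V ⊗[ℂ] W) where
  toFun p := TensorProduct.map (ρ p.1) (τ p.2)
  map_one' := by
    simp only [Prod.fst_one, Prod.snd_one, map_one]
    exact TensorProduct.map_one
  map_mul' p q := by
    simp only [Prod.fst_mul, Prod.snd_mul, map_mul]
    exact TensorProduct.map_mul _ _ _ _

theorem expands_outer {ρ : G →* Module.End ℂ V} {τ : G →* Module.End ℂ W} {c d : ℂ}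
    (hρ : Expands ρ c) (hτ : Expands τ d) : Expands (outer ρ τ) (c * d) := by
  have hbase : ∀ (A : Module.End ℂ V) (B : Module.End ℂ W),
      ∑ h : G × G, (LinearMap.trace ℂ (V ⊗[ℂ] W) (TensorProduct.map A B * outer ρ τ h⁻¹)) • outer ρ τ h =
        (c * d) • (TensorProduct.map A B : Module.End ℂ (V ⊗[ℂ] W)) := by
    intro A B
    have h1 : ∀ h : G × G, LinearMap.trace ℂ (V ⊗[ℂ] W) (TensorProduct.map A B * outer ρ τ h⁻¹) =
        LinearMap.trace ℂ V (A * ρ h.1⁻¹) * LinearMap.trace ℂ W (B * τ h.2⁻¹) := by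
      intro h
      have : TensorProduct.map A B * outer ρ τ h⁻¹ = TensorProduct.map (A * ρ h.1⁻¹) (B * τ h.2⁻¹) := by
        rw [TensorProduct.map_mul]; rfl
      rw [this, LinearMap.trace_tensorProduct']
    simp only [h1]
    rw [Fintype.sum_prod_type]
    have h2 : (c * d) • (TensorProduct.map A B : Module.End ℂ (V ⊗[ℂ] W)) =
        TensorProduct.map (c • A) (d • B) := by
      rw [TensorProduct.map_smul_left, TensorProduct.map_smul_right, smul_smul]
    rw [h2, ← hρ A, ← hτ B]
    have h3 : TensorProduct.map (∑ h : G, LinearMap.trace ℂ V (A * ρ h⁻¹) • ρ h)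
        (∑ h : G, LinearMap.trace ℂ W (B * τ h⁻¹) • τ h) =
        TensorProduct.mapBilinear (.id ℂ) V W V W (∑ h : G, LinearMap.trace ℂ V (A * ρ h⁻¹) • ρ h)
          (∑ h : G, LinearMap.trace ℂ W (B * τ h⁻¹) • τ h) := rfl
    rw [h3]
    simp only [map_sum, LinearMap.sum_apply]
    rw [Finset.sum_comm]
    refine Finset.sum_congr rfl fun x _ => ?_
    refine Finset.sum_congr rfl fun y _ => ?_
    rw [map_smul, map_smul, LinearMap.smul_apply, smul_smul]
    first
    | rfl
    | (rw [mul_comm]; rfl)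
  intro X
  obtain ⟨t, rfl⟩ := (homTensorHomEquiv ℂ V W V W).surjective X
  induction t using TensorProduct.induction_on with
  | zero => simp
  | tmul A B =>
    rw [homTensorHomEquiv_apply, TensorProduct.homTensorHomMap_apply]
    exact hbase A B
  | add s t hs ht =>
    simp only [map_add, add_mul, add_smul, Finset.sum_add_distrib, smul_add, hs, ht]

/-- Under simultaneous inversion of pairs, the equivariant endomorphisms of a tensor product commute. -/
theorem comm_of_pairs {ρ : G →* Module.End ℂ V} {τ : G →* Module.End ℂ W} {c d : ℂ} (hc : c ≠ 0) (hd : d ≠ 0)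
    (hρ : Expands ρ c) (hτ : Expands τ d)
    (hG : ∀ x y : G, ∃ g : G, g * x * g⁻¹ = x⁻¹ ∧ g * y * g⁻¹ = y⁻¹)
    (A B : Module.End ℂ (V ⊗[ℂ] W))
    (hA : ∀ g : G, A * outer ρ τ (g, g) = outer ρ τ (g, g) * A)
    (hB : ∀ g : G, B * outer ρ τ (g, g) = outer ρ τ (g, g) * B) : A * B = B * A := by
  have hsym : ∀ X : Module.End ℂ (V ⊗[ℂ] W), (∀ g : G, X * outer ρ τ (g, g) = outer ρ τ (g, g) * X) →
      ∀ h : G × G, LinearMap.trace ℂ _ (X * outer ρ τ h⁻¹) = LinearMap.trace ℂ _ (X * outer ρ τ h) := by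
    rintro X hX ⟨x, y⟩
    obtain ⟨g, hx, hy⟩ := hG x y
    have h1 : ((x, y) : G × G)⁻¹ = (g, g) * (x, y) * (g, g)⁻¹ := by
      ext <;> simp [hx, hy]
    have h2 : outer ρ τ ((g, g)⁻¹) * outer ρ τ (g, g) = 1 := by
      rw [← map_mul (outer ρ τ), inv_mul_cancel, map_one]
    have h3 : X * outer ρ τ ((g, g) * (x, y) * (g, g)⁻¹) =
        outer ρ τ (g, g) * (X * outer ρ τ (x, y) * outer ρ τ ((g, g)⁻¹)) := by
      rw [map_mul, map_mul, ← mul_assoc, ← mul_assoc, hX]
      simp only [mul_assoc]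
    rw [h1, h3, LinearMap.trace_mul_comm, mul_assoc (X * outer ρ τ (x, y)), h2, mul_one]
  refine comm_of_symm (outer ρ τ) (c * d) (mul_ne_zero hc hd) (expands_outer hρ hτ) A B (hsym A hA) (hsym B hB)
    (hsym (B * A) fun g => ?_)
  rw [mul_assoc, hA, ← mul_assoc, hB, mul_assoc]

end tensorpart

section cat

variable {G : Type} [Group G] [Fintype G]

theorem schur_scalar (V : FDRep ℂ G) [Simple V] (f : Module.End ℂ V)
    (hf : ∀ g, f * V.ρ g = V.ρ g * f) : ∃ c : ℂ, f = c • (1 : Module.End ℂ V) := by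
  have h1 : Module.finrank ℂ (Representation.linHom V.ρ V.ρ).invariants = 1 := by
    rw [LinearEquiv.finrank_eq (Representation.linHom.invariantsEquivFDRepHom V V)]
    exact finrank_endomorphism_simple_eq_one ℂ V
  have hmem : ∀ f : Module.End ℂ V, (∀ g, f * V.ρ g = V.ρ g * f) →
      f ∈ (Representation.linHom V.ρ V.ρ).invariants := by
    intro f hf g
    have : (Representation.linHom V.ρ V.ρ g) f = V.ρ g * f * V.ρ g⁻¹ := rfl
    rw [this, ← hf, mul_assoc, ← map_mul, mul_inv_cancel, map_one, mul_one]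
  have hone : ∀ g, (1 : Module.End ℂ V) * V.ρ g = V.ρ g * 1 := fun g => by rw [one_mul, mul_one]
  haveI : Nontrivial V := by
    by_contra hcon
    rw [not_nontrivial_iff_subsingleton] at hcon
    haveI := hcon
    haveI : Subsingleton (Representation.linHom V.ρ V.ρ).invariants := by
      refine ⟨fun a b => Subtype.ext (LinearMap.ext fun x => Subsingleton.elim _ _)⟩
    rw [Module.finrank_zero_of_subsingleton] at h1
    exact zero_ne_one h1
  obtain ⟨c, hc⟩ := (finrank_eq_one_iff_of_nonzero'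
    (⟨1, hmem 1 hone⟩ : (Representation.linHom V.ρ V.ρ).invariants)
    (fun h => one_ne_zero (congrArg Subtype.val h))).mp h1 ⟨f, hmem f hf⟩
  exact ⟨c, (congrArg Subtype.val hc).symm⟩

theorem nontrivial_of_simple (V : FDRep ℂ G) [Simple V] : Nontrivial V := by
  have h1 : Module.finrank ℂ (Representation.linHom V.ρ V.ρ).invariants = 1 := by
    rw [LinearEquiv.finrank_eq (Representation.linHom.invariantsEquivFDRepHom V V)]
    exact finrank_endomorphism_simple_eq_one ℂ V
  by_contra hcon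
  rw [not_nontrivial_iff_subsingleton] at hcon
  haveI := hcon
  haveI : Subsingleton (Representation.linHom V.ρ V.ρ).invariants := by
    refine ⟨fun a b => Subtype.ext (LinearMap.ext fun x => Subsingleton.elim _ _)⟩
  rw [Module.finrank_zero_of_subsingleton] at h1
  exact zero_ne_one h1

theorem end_comm (hG : ∀ x y : G, ∃ g : G, g * x * g⁻¹ = x⁻¹ ∧ g * y * g⁻¹ = y⁻¹)
    (V W : FDRep ℂ G) [Simple V] [Simple W] (A B : V ⊗ W ⟶ V ⊗ W) : A ≫ B = B ≫ A := by
  haveI := nontrivial_of_simple V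
  haveI := nontrivial_of_simple W
  have hV := expands_of_schur V.ρ (schur_scalar V)
  have hW := expands_of_schur W.ρ (schur_scalar W)
  have hcard : (Fintype.card G : ℂ) ≠ 0 := by exact_mod_cast Fintype.card_ne_zero
  have hdV : (Module.finrank ℂ V : ℂ) ≠ 0 := by exact_mod_cast (Module.finrank_pos (R := ℂ) (M := V)).ne'
  have hdW : (Module.finrank ℂ W : ℂ) ≠ 0 := by exact_mod_cast (Module.finrank_pos (R := ℂ) (M := W)).ne'
  have hin : ∀ (A : V ⊗ W ⟶ V ⊗ W) (g : G), (A.hom.hom.hom : Module.End ℂ (TensorProduct ℂ V W)) * outer V.ρ W.ρ (g, g) =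
      outer V.ρ W.ρ (g, g) * A.hom.hom.hom := by
    intro A g
    have := A.comm g
    have h2 := congrArg (fun f => f.hom.hom) this
    exact h2
  have := comm_of_pairs (div_ne_zero hcard hdV) (div_ne_zero hcard hdW) hV hW hG _ _ (hin B) (hin A)
  apply Action.Hom.ext
  apply InducedCategory.hom_ext
  apply ModuleCat.hom_ext
  exact this

theorem multFree (hG : ∀ x y : G, ∃ g : G, g * x * g⁻¹ = x⁻¹ ∧ g * y * g⁻¹ = y⁻¹)
    (U V W : FDRep ℂ G) (hU : Simple U) (hV : Simple V) (hW : Simple W) :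
    Module.finrank ℂ (U ⟶ V ⊗ W) ≤ 1 := by
  haveI : NeZero (Nat.card G : ℂ) := ⟨by exact_mod_cast Nat.card_pos.ne'⟩
  by_cases h0 : ∃ T : U ⟶ V ⊗ W, T ≠ 0
  · obtain ⟨T, hT⟩ := h0
    haveI : Mono T := mono_of_nonzero_from_simple hT
    let S : V ⊗ W ⟶ U := Injective.factorThru (𝟙 U) T
    have hTS : T ≫ S = 𝟙 U := Injective.comp_factorThru (𝟙 U) T
    refine finrank_le_one T fun T1 => ?_
    obtain ⟨c, hc⟩ := endomorphism_simple_eq_smul_id ℂ (T1 ≫ S)
    refine ⟨c, ?_⟩
    have h1 : (T1 - c • T) ≫ S = 0 := by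
      rw [Preadditive.sub_comp, Linear.smul_comp, hTS, hc, sub_self]
    have h2 := end_comm hG V W (S ≫ T) (S ≫ (T1 - c • T))
    have h3 : (S ≫ T) ≫ (S ≫ (T1 - c • T)) = S ≫ (T1 - c • T) := by
      rw [Category.assoc, ← Category.assoc T S, hTS, Category.id_comp]
    have h4 : (S ≫ (T1 - c • T)) ≫ (S ≫ T) = 0 := by
      rw [Category.assoc, ← Category.assoc (T1 - c • T) S, h1, Limits.zero_comp, Limits.comp_zero]
    rw [h3, h4] at h2
    have h5 : T ≫ S ≫ (T1 - c • T) = 0 := by rw [h2, Limits.comp_zero]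
    rw [← Category.assoc, hTS, Category.id_comp] at h5
    exact (sub_eq_zero.mp h5).symm
  · push Not at h0
    haveI : Subsingleton (U ⟶ V ⊗ W) := ⟨fun a b => by rw [h0 a, h0 b]⟩
    rw [Module.finrank_zero_of_subsingleton]
    exact zero_le_one

end cat

end Pool.Agent.Helper886.SR
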