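import Pool.Agent.Helper886.SR.Rot

set_option autoImplicit false
open Quaternion

namespace Pool.Agent.Helper886.SR

/-- noncentral -/
def NC (q : ℍ[ℚ]) : Prop := ¬ (q.imI = 0 ∧ q.imJ = 0 ∧ q.imK = 0)

theorem comm_real (X g : (ℍ[ℚ])ˣ) (h : ¬ NC (X * (g * X * g⁻¹) * X⁻¹ * (g * X * g⁻¹)⁻¹ : (ℍ[ℚ])ˣ).val) :
    ∃ z : ℚ, (z = 1 ∨ z = -1) ∧ X.val * (g.val * X.val * star g.val) = z • ((g.val * X.val * star g.val) * X.val) := by
  unfold NC at h
  push Not at h
  set Z : (ℍ[ℚ])ˣ := X * (g * X * g⁻¹) * X⁻¹ * (g * X * g⁻¹)⁻¹ with hZ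
  have hZr : Z.val = Quaternion.coe Z.val.re := by
    ext <;> simp [h]
  refine ⟨Z.val.re, ?_, ?_⟩
  · have hn : normSq Z.val = 1 := by
      have h1 : normSq Z.val = normSq X.val * (normSq g.val * normSq X.val * normSq (g⁻¹).val) * normSq (X⁻¹).val *
          normSq ((g * X * g⁻¹)⁻¹).val := by
        rw [hZ]
        simp only [Units.val_mul, map_mul]
      have h2 : ∀ u : (ℍ[ℚ])ˣ, normSq u.val * normSq (u⁻¹).val = 1 := by
        intro u
        rw [← map_mul, Units.mul_inv, map_one]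
      have h3 := h2 X
      have h4 := h2 (g * X * g⁻¹)
      have h5 : normSq (g * X * g⁻¹ : (ℍ[ℚ])ˣ).val = normSq g.val * normSq X.val * normSq (g⁻¹).val := by
        simp only [Units.val_mul, map_mul]
      rw [h1, ← h5]
      linear_combination (normSq (g * X * g⁻¹ : (ℍ[ℚ])ˣ).val * normSq ((g * X * g⁻¹)⁻¹ : (ℍ[ℚ])ˣ).val) * h3 + h4
    rw [normSq_def'] at hn
    obtain ⟨h1, h2, h3⟩ := h
    rw [h1, h2, h3] at hn
    have : (Z.val.re - 1) * (Z.val.re + 1) = 0 := by linear_combination hn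
    rcases mul_eq_zero.mp this with h | h
    · left; linarith
    · right; linarith
  · have hginv : g.val * X.val * star g.val = (normSq g.val) • (g * X * g⁻¹ : (ℍ[ℚ])ˣ).val := by
      have h1 : star g.val = (normSq g.val) • (g⁻¹ : (ℍ[ℚ])ˣ).val := by
        rw [← coe_mul_eq_smul, ← star_mul_self, mul_assoc, Units.mul_inv, mul_one]
      rw [h1, Units.val_mul, Units.val_mul, mul_smul_comm]
    rw [hginv]
    set Y : (ℍ[ℚ])ˣ := g * X * g⁻¹ with hY
    have hXY : X.val * Y.val = Z.val.re • (Y.val * X.val) := by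
      have : X * Y = Z * (Y * X) := by
        rw [hZ]; group
      have h9 : (X * Y).val = (Z * (Y * X)).val := congrArg Units.val this
      have h10 : (X * Y).val = X.val * Y.val := rfl
      have h11 : (Z * (Y * X)).val = Z.val * (Y.val * X.val) := rfl
      rw [h10, h11] at h9
      rw [h9, ← coe_mul_eq_smul, ← hZr]
    rw [mul_smul_comm, hXY, smul_mul_assoc, smul_comm]

/-- components of `X * (G X G*)` and `(G X G*) * X`, `G = 2 + i`. -/
theorem comps1 (X G : ℍ[ℚ]) (a b c d : ℚ) (ha : X.re = a) (hb : X.imI = b) (hc : X.imJ = c) (hd : X.imK = d)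
    (h0 : G.re = 2) (h1 : G.imI = 1) (h2 : G.imJ = 0) (h3 : G.imK = 0) (z : ℚ)
    (hE : X * (G * X * star G) = z • ((G * X * star G) * X)) :
    5*a^2-5*b^2-3*c^2-3*d^2 = z * (5*a^2-5*b^2-3*c^2-3*d^2) ∧
    10*a*b + 4*(c^2+d^2) = z * (10*a*b - 4*(c^2+d^2)) ∧
    (8*a*c - 4*a*d) + (2*b*d - 4*b*c) = z * ((8*a*c - 4*a*d) - (2*b*d - 4*b*c)) ∧
    (8*a*d + 4*a*c) + (-2*b*c - 4*b*d) = z * ((8*a*d + 4*a*c) - (-2*b*c - 4*b*d)) := by
  have e1 := congrArg QuaternionAlgebra.re hE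
  have e2 := congrArg QuaternionAlgebra.imI hE
  have e3 := congrArg QuaternionAlgebra.imJ hE
  have e4 := congrArg QuaternionAlgebra.imK hE
  simp only [Quaternion.re_mul, Quaternion.imI_mul, Quaternion.imJ_mul, Quaternion.imK_mul,
      Quaternion.re_star, Quaternion.imI_star, Quaternion.imJ_star, Quaternion.imK_star,
      Quaternion.re_smul, Quaternion.imI_smul, Quaternion.imJ_smul, Quaternion.imK_smul, smul_eq_mul,
      ha, hb, hc, hd, h0, h1, h2, h3] at e1 e2 e3 e4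
  refine ⟨?_, ?_, ?_, ?_⟩
  · linear_combination e1
  · linear_combination e2
  · linear_combination e3
  · linear_combination e4

/-- components for `G = 2 + j` and `X = a + b i`. -/
theorem comps2 (X G : ℍ[ℚ]) (a b : ℚ) (ha : X.re = a) (hb : X.imI = b) (hc : X.imJ = 0) (hd : X.imK = 0)
    (h0 : G.re = 2) (h1 : G.imI = 0) (h2 : G.imJ = 1) (h3 : G.imK = 0) (z : ℚ)
    (hE : X * (G * X * star G) = z • ((G * X * star G) * X)) :
    5*a^2-3*b^2 = z * (5*a^2-3*b^2) ∧ 8*a*b = z * (8*a*b) ∧ 4*b^2 = z * (-4*b^2) := by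
  have e1 := congrArg QuaternionAlgebra.re hE
  have e2 := congrArg QuaternionAlgebra.imI hE
  have e3 := congrArg QuaternionAlgebra.imJ hE
  simp only [Quaternion.re_mul, Quaternion.imI_mul, Quaternion.imJ_mul, Quaternion.imK_mul,
      Quaternion.re_star, Quaternion.imI_star, Quaternion.imJ_star, Quaternion.imK_star,
      Quaternion.re_smul, Quaternion.imI_smul, Quaternion.imJ_smul, Quaternion.imK_smul, smul_eq_mul,
      ha, hb, hc, hd, h0, h1, h2, h3] at e1 e2 e3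
  refine ⟨?_, ?_, ?_⟩
  · linear_combination e1
  · linear_combination e2
  · linear_combination e3

theorem step (X : (ℍ[ℚ])ˣ) (hX : NC X.val) :
    ∃ g : (ℍ[ℚ])ˣ, NC (X * (g * X * g⁻¹) * X⁻¹ * (g * X * g⁻¹)⁻¹ : (ℍ[ℚ])ˣ).val := by
  have hg1 : (⟨2, 1, 0, 0⟩ : ℍ[ℚ]) ≠ 0 := by
    intro h
    have := congrArg QuaternionAlgebra.imI h
    simp at this
  have hg2 : (⟨2, 0, 1, 0⟩ : ℍ[ℚ]) ≠ 0 := by
    intro h
    have := congrArg QuaternionAlgebra.imJ h
    simp at this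
  have hX0 : X.val ≠ 0 := X.ne_zero
  obtain ⟨a, ha⟩ : ∃ a, X.val.re = a := ⟨_, rfl⟩
  obtain ⟨b, hb⟩ : ∃ b, X.val.imI = b := ⟨_, rfl⟩
  obtain ⟨c, hc⟩ : ∃ c, X.val.imJ = c := ⟨_, rfl⟩
  obtain ⟨d, hd⟩ : ∃ d, X.val.imK = d := ⟨_, rfl⟩
  have hsq : 0 < a ^ 2 + b ^ 2 + c ^ 2 + d ^ 2 := by
    have h1 : normSq X.val ≠ 0 := normSq_ne_zero.mpr hX0
    have h2 : 0 ≤ normSq X.val := normSq_nonneg
    rw [normSq_def', ha, hb, hc, hd] at h1 h2
    exact lt_of_le_of_ne h2 (Ne.symm h1)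
  by_cases hcd : c = 0 ∧ d = 0
  · refine ⟨Units.mk0 _ hg2, ?_⟩
    by_contra hcon
    obtain ⟨z, hz, hE⟩ := comm_real X (Units.mk0 _ hg2) hcon
    obtain ⟨e1, e2, e3⟩ := comps2 X.val (Units.mk0 _ hg2).val a b ha hb (hc.trans hcd.1) (hd.trans hcd.2) rfl rfl rfl rfl z hE
    have hb0 : b ≠ 0 := by
      intro hb0
      exact hX ⟨hb.trans hb0, hc.trans hcd.1, hd.trans hcd.2⟩
    have hb2 : 0 < b ^ 2 := by positivity
    rcases hz with rfl | rfl
    · linarith
    · have hab : a * b = 0 := by linarith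
      have ha0 : a = 0 := (mul_eq_zero.mp hab).resolve_right hb0
      rw [ha0] at e1
      linarith
  · refine ⟨Units.mk0 _ hg1, ?_⟩
    by_contra hcon
    obtain ⟨z, hz, hE⟩ := comm_real X (Units.mk0 _ hg1) hcon
    obtain ⟨e1, e2, e3, e4⟩ := comps1 X.val (Units.mk0 _ hg1).val a b c d ha hb hc hd rfl rfl rfl rfl z hE
    rcases hz with rfl | rfl
    · have h1 : c ^ 2 + d ^ 2 = 0 := by linarith
      apply hcd
      constructor <;> nlinarith [sq_nonneg c, sq_nonneg d]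
    · have hab : a * b = 0 := by linarith
      have h3 : a * (2 * c - d) = 0 := by linarith
      have h4 : a * (2 * d + c) = 0 := by linarith
      rcases eq_or_ne a 0 with ha0 | ha0
      · rw [ha0] at e1 hsq
        nlinarith [sq_nonneg b, sq_nonneg c, sq_nonneg d]
      · have h5 := (mul_eq_zero.mp h3).resolve_left ha0
        have h6 := (mul_eq_zero.mp h4).resolve_left ha0
        have hc0 : c = 0 := by linarith
        have hd0 : d = 0 := by linarith
        exact hcd ⟨hc0, hd0⟩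

theorem exists_NC (c : ℕ) : ∃ X : (ℍ[ℚ])ˣ, X ∈ derivedSeries (ℍ[ℚ])ˣ c ∧ NC X.val := by
  induction c with
  | zero =>
    have hg : (⟨0, 1, 0, 0⟩ : ℍ[ℚ]) ≠ 0 := by
      intro h
      have := congrArg QuaternionAlgebra.imI h
      simp at this
    refine ⟨Units.mk0 _ hg, Subgroup.mem_top _, ?_⟩
    intro h
    exact one_ne_zero h.1
  | succ c ih =>
    obtain ⟨X, hX, hN⟩ := ih
    obtain ⟨g, hg⟩ := step X hN
    refine ⟨_, ?_, hg⟩
    rw [derivedSeries_succ]
    exact Subgroup.commutator_mem_commutator hX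
      ((derivedSeries_normal (ℍ[ℚ])ˣ c).conj_mem X hX g)

end Pool.Agent.Helper886.SR
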