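import Pool.Agent.Helper886.SR.Rot

set_option autoImplicit false
open Quaternion

namespace Pool.Agent.Helper886.SR

theorem no_mod4 : ∀ u v : ZMod 4, 1 + u ^ 2 + v ^ 2 ≠ 0 := by decide

theorem three_sq_aux (x y z : ℚ_[2]) (h : x ^ 2 + y ^ 2 + z ^ 2 = 1) (hx : 1 < ‖x‖) (hy : ‖y‖ ≤ ‖x‖) (hz : ‖z‖ ≤ ‖x‖) :
    False := by
  have hx0 : x ≠ 0 := by
    rintro rfl
    rw [norm_zero] at hx
    linarith
  have hxp : 0 < ‖x‖ := by linarith
  have hy1 : ‖y / x‖ ≤ 1 := by rw [norm_div]; exact (div_le_one hxp).2 hy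
  have hz1 : ‖z / x‖ ≤ 1 := by rw [norm_div]; exact (div_le_one hxp).2 hz
  have hi1 : ‖x⁻¹‖ ≤ 1 := by rw [norm_inv]; exact inv_le_one_of_one_le₀ hx.le
  let u : ℤ_[2] := ⟨y / x, hy1⟩
  let v : ℤ_[2] := ⟨z / x, hz1⟩
  let w : ℤ_[2] := ⟨x⁻¹, hi1⟩
  have heq : 1 + u ^ 2 + v ^ 2 = w ^ 2 := by
    apply Subtype.ext
    change (1 + (y / x) ^ 2 + (z / x) ^ 2 : ℚ_[2]) = (x⁻¹) ^ 2
    field_simp
    linear_combination h
  have hw : ‖w‖ < 1 := by
    change ‖x⁻¹‖ < 1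
    rw [norm_inv]
    exact inv_lt_one_of_one_lt₀ hx
  have hw2 : (2 : ℤ_[2]) ∣ w := by
    have := PadicInt.norm_lt_one_iff_dvd w
    exact_mod_cast this.mp hw
  obtain ⟨t, ht⟩ := hw2
  have h4 := congrArg (PadicInt.toZModPow 2 : ℤ_[2] →+* ZMod (2 ^ 2)) heq
  rw [ht] at h4
  simp only [map_add, map_one, map_pow, map_mul, map_ofNat] at h4
  have h5 : (2 * (PadicInt.toZModPow 2 : ℤ_[2] →+* ZMod (2 ^ 2)) t) ^ 2 = 0 := by
    rw [mul_pow]
    have : (2 : ZMod (2 ^ 2)) ^ 2 = 0 := by decide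
    rw [this, zero_mul]
  rw [h5] at h4
  exact no_mod4 _ _ h4

theorem three_sq (x y z : ℚ_[2]) (h : x ^ 2 + y ^ 2 + z ^ 2 = 1) : ‖x‖ ≤ 1 := by
  by_contra hcon
  push Not at hcon
  rcases le_total ‖y‖ ‖x‖ with h1 | h1
  · rcases le_total ‖z‖ ‖x‖ with h2 | h2
    · exact three_sq_aux x y z h hcon h1 h2
    · exact three_sq_aux z x y (by linear_combination h) (hcon.trans_le h2) h2 (h1.trans h2)
  · rcases le_total ‖z‖ ‖y‖ with h2 | h2
    · exact three_sq_aux y x z (by linear_combination h) (hcon.trans_le h1) h1 h2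
    · exact three_sq_aux z x y (by linear_combination h) (hcon.trans_le (h1.trans h2)) (h1.trans h2) h2

theorem rot_int (u : (ℍ[ℚ])ˣ) (i j : Fin 3) : ‖((rot u i j : ℚ) : ℚ_[2])‖ ≤ 1 := by
  have h := congrFun (congrFun (rot_mul_transpose u) i) i
  rw [Matrix.mul_apply, Fin.sum_univ_three, Matrix.one_apply_eq] at h
  simp only [Matrix.transpose_apply] at h
  have h' : ((rot u i 0 : ℚ) : ℚ_[2]) ^ 2 + ((rot u i 1 : ℚ) : ℚ_[2]) ^ 2 + ((rot u i 2 : ℚ) : ℚ_[2]) ^ 2 = 1 := by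
    have := congrArg (fun q : ℚ => (q : ℚ_[2])) h
    push_cast at this
    linear_combination this
  fin_cases j
  · exact three_sq _ _ _ h'
  · exact three_sq _ _ _ (by linear_combination h' : ((rot u i 1 : ℚ) : ℚ_[2]) ^ 2 + ((rot u i 0 : ℚ) : ℚ_[2]) ^ 2 + ((rot u i 2 : ℚ) : ℚ_[2]) ^ 2 = 1)
  · exact three_sq _ _ _ (by linear_combination h' : ((rot u i 2 : ℚ) : ℚ_[2]) ^ 2 + ((rot u i 0 : ℚ) : ℚ_[2]) ^ 2 + ((rot u i 1 : ℚ) : ℚ_[2]) ^ 2 = 1)

/-- The rotation with 2-adic integral entries. -/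
noncomputable def rotZ : (ℍ[ℚ])ˣ →* Matrix (Fin 3) (Fin 3) ℤ_[2] where
  toFun u := Matrix.of fun i j => ⟨((rot u i j : ℚ) : ℚ_[2]), rot_int u i j⟩
  map_one' := by
    refine Matrix.ext fun i j => Subtype.ext ?_
    change ((rot 1 i j : ℚ) : ℚ_[2]) = (((1 : Matrix (Fin 3) (Fin 3) ℤ_[2]) i j : ℤ_[2]) : ℚ_[2])
    rw [map_one]
    by_cases hij : i = j
    · subst hij
      simp
    · simp [hij]
  map_mul' u v := by
    refine Matrix.ext fun i j => Subtype.ext ?_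
    change ((rot (u * v) i j : ℚ) : ℚ_[2]) = _
    rw [Matrix.mul_apply, Fin.sum_univ_three, map_mul, Matrix.mul_apply, Fin.sum_univ_three]
    push_cast
    rfl

theorem rotZ_coe (u : (ℍ[ℚ])ˣ) (i j : Fin 3) : ((rotZ u i j : ℤ_[2]) : ℚ_[2]) = ((rot u i j : ℚ) : ℚ_[2]) := rfl

theorem rotZ_mul_transpose (u : (ℍ[ℚ])ˣ) : rotZ u * (rotZ u).transpose = 1 := by
  refine Matrix.ext fun i j => Subtype.ext ?_
  have h := congrFun (congrFun (rot_mul_transpose u) i) j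
  rw [Matrix.mul_apply, Fin.sum_univ_three] at h
  simp only [Matrix.transpose_apply] at h
  have h2 := congrArg (fun q : ℚ => (q : ℚ_[2])) h
  push_cast at h2
  have h3 : (((rotZ u i 0 * rotZ u j 0 + rotZ u i 1 * rotZ u j 1 + rotZ u i 2 * rotZ u j 2 : ℤ_[2])) : ℚ_[2]) =
      ((rot u i 0 : ℚ) : ℚ_[2]) * ((rot u j 0 : ℚ) : ℚ_[2]) + ((rot u i 1 : ℚ) : ℚ_[2]) * ((rot u j 1 : ℚ) : ℚ_[2]) +
      ((rot u i 2 : ℚ) : ℚ_[2]) * ((rot u j 2 : ℚ) : ℚ_[2]) := by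
    push_cast
    rfl
  have h5 : (rotZ u * (rotZ u).transpose) i j = (rotZ u i 0 * rotZ u j 0 + rotZ u i 1 * rotZ u j 1 + rotZ u i 2 * rotZ u j 2) := by
    rw [Matrix.mul_apply, Fin.sum_univ_three]
    rfl
  refine (congrArg (fun x : ℤ_[2] => (x : ℚ_[2])) h5).trans (h3.trans (h2.trans ?_))
  by_cases hij : i = j
  · subst hij
    simp
  · simp [hij]

/-- Reduction modulo `2^(n+1)`. -/
noncomputable def redM (n : ℕ) : (ℍ[ℚ])ˣ →* Matrix (Fin 3) (Fin 3) (ZMod (2 ^ (n + 1))) :=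
  ((PadicInt.toZModPow (n + 1) : ℤ_[2] →+* ZMod (2 ^ (n + 1))).mapMatrix.toMonoidHom).comp rotZ

/-- Into the unit group. -/
noncomputable def red (n : ℕ) : (ℍ[ℚ])ˣ →* (Matrix (Fin 3) (Fin 3) (ZMod (2 ^ (n + 1))))ˣ :=
  (redM n).toHomUnits

theorem red_val (n : ℕ) (u : (ℍ[ℚ])ˣ) : (red n u).val = redM n u := rfl

theorem redM_apply (n : ℕ) (u : (ℍ[ℚ])ˣ) (i j : Fin 3) :
    redM n u i j = (PadicInt.toZModPow (n + 1) : ℤ_[2] →+* ZMod (2 ^ (n + 1))) (rotZ u i j) := rfl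

theorem redM_mul_transpose (n : ℕ) (u : (ℍ[ℚ])ˣ) : redM n u * (redM n u).transpose = 1 := by
  have h := congrArg (fun M => (PadicInt.toZModPow (n + 1) : ℤ_[2] →+* ZMod (2 ^ (n + 1))).mapMatrix M) (rotZ_mul_transpose u)
  simp only [map_mul, map_one] at h
  exact h

theorem rotZ_of_rot (u : (ℍ[ℚ])ˣ) (h : rot u = 1) : rotZ u = 1 := by
  refine Matrix.ext fun i j => Subtype.ext ?_
  change ((rot u i j : ℚ) : ℚ_[2]) = _
  rw [h]
  by_cases hij : i = j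
  · subst hij
    simp
  · simp [hij]

theorem red_of_rot (n : ℕ) (u : (ℍ[ℚ])ˣ) (h : rot u = 1) : red n u = 1 := by
  apply Units.ext
  rw [red_val, redM, MonoidHom.comp_apply, rotZ_of_rot u h, map_one]
  rfl

/-- A unit quaternion with trivial reductions is central. -/
theorem rot_of_red (u : (ℍ[ℚ])ˣ) (h : ∀ n, red n u = 1) : rot u = 1 := by
  ext i j
  have h1 : rotZ u i j = (1 : Matrix (Fin 3) (Fin 3) ℤ_[2]) i j := by
    rw [← PadicInt.ext_of_toZModPow]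
    intro n
    cases n with
    | zero => exact Subsingleton.elim (α := ZMod 1) _ _
    | succ n =>
      have h2 := congrArg (fun v : (Matrix (Fin 3) (Fin 3) (ZMod (2 ^ (n + 1))))ˣ => v.val i j) (h n)
      simp only [red_val, redM_apply, Units.val_one] at h2
      rw [h2]
      by_cases hij : i = j
      · subst hij
        simp
      · simp [hij]
  have h3 := congrArg (fun x : ℤ_[2] => (x : ℚ_[2])) h1
  simp only [rotZ_coe] at h3
  have h4 : ((rot u i j : ℚ) : ℚ_[2]) = (((1 : Matrix (Fin 3) (Fin 3) ℚ) i j : ℚ) : ℚ_[2]) := by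
    rw [h3]
    by_cases hij : i = j
    · subst hij
      simp
    · simp [hij]
  exact_mod_cast h4

end Pool.Agent.Helper886.SR
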