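import Mathlib

set_option autoImplicit false
open Quaternion

namespace Pool.Agent.Helper886.SR

/-- Numerators of the rotation matrix of a quaternion. -/
def rotNum (q : ℍ[ℚ]) : Matrix (Fin 3) (Fin 3) ℚ :=
  !![q.re^2+q.imI^2-q.imJ^2-q.imK^2, 2*(q.imI*q.imJ-q.re*q.imK), 2*(q.imI*q.imK+q.re*q.imJ);
     2*(q.imI*q.imJ+q.re*q.imK), q.re^2-q.imI^2+q.imJ^2-q.imK^2, 2*(q.imJ*q.imK-q.re*q.imI);
     2*(q.imI*q.imK-q.re*q.imJ), 2*(q.imJ*q.imK+q.re*q.imI), q.re^2-q.imI^2-q.imJ^2+q.imK^2]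

theorem rotNum_mul (p q : ℍ[ℚ]) : rotNum (p * q) = rotNum p * rotNum q := by
  ext i j
  fin_cases i <;> fin_cases j <;>
    simp [rotNum, Matrix.mul_apply, Fin.sum_univ_three] <;> ring

theorem rotNum_mul_transpose (q : ℍ[ℚ]) : rotNum q * (rotNum q).transpose = (normSq q) ^ 2 • (1 : Matrix (Fin 3) (Fin 3) ℚ) := by
  ext i j
  rw [normSq_def']
  fin_cases i <;> fin_cases j <;>
    simp [rotNum, Matrix.mul_apply, Fin.sum_univ_three] <;> ring

theorem normSq_unit_ne (u : (ℍ[ℚ])ˣ) : normSq u.val ≠ 0 := by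
  rw [normSq_ne_zero]; exact u.ne_zero

/-- The rotation of a unit quaternion. -/
noncomputable def rot : (ℍ[ℚ])ˣ →* Matrix (Fin 3) (Fin 3) ℚ where
  toFun u := (normSq u.val)⁻¹ • rotNum u.val
  map_one' := by
    ext i j
    fin_cases i <;> fin_cases j <;> simp [rotNum]
  map_mul' u v := by
    rw [Units.val_mul, map_mul, rotNum_mul, mul_inv, Matrix.smul_mul, Matrix.mul_smul, smul_smul]

theorem rot_apply (u : (ℍ[ℚ])ˣ) : rot u = (normSq u.val)⁻¹ • rotNum u.val := rfl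

theorem rot_mul_transpose (u : (ℍ[ℚ])ˣ) : rot u * (rot u).transpose = 1 := by
  have h := normSq_unit_ne u
  rw [rot_apply, Matrix.transpose_smul, Matrix.smul_mul, Matrix.mul_smul, rotNum_mul_transpose, smul_smul, smul_smul]
  have : (normSq u.val)⁻¹ * (normSq u.val)⁻¹ * (normSq u.val) ^ 2 = 1 := by
    field_simp
  rw [this, one_smul]

theorem rot_central (u : (ℍ[ℚ])ˣ) (h1 : u.val.imI = 0) (h2 : u.val.imJ = 0) (h3 : u.val.imK = 0) : rot u = 1 := by
  have h := normSq_unit_ne u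
  rw [normSq_def'] at h
  rw [rot_apply, normSq_def']
  rw [h1, h2, h3] at h ⊢
  ext i j
  fin_cases i <;> fin_cases j <;>
    simp [rotNum, h1, h2, h3] <;> field_simp <;> simp_all

theorem central_of_rot (u : (ℍ[ℚ])ˣ) (h : rot u = 1) : u.val.imI = 0 ∧ u.val.imJ = 0 ∧ u.val.imK = 0 := by
  have hn := normSq_unit_ne u
  have e0 := congrFun (congrFun h 0) 0
  have e1 := congrFun (congrFun h 1) 1
  simp only [rot_apply, Matrix.smul_apply, smul_eq_mul, Matrix.one_apply_eq] at e0 e1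
  rw [inv_mul_eq_one₀ hn, normSq_def'] at e0 e1
  simp only [rotNum, Matrix.of_apply, Matrix.cons_val', Matrix.cons_val_zero, Matrix.cons_val_one] at e0 e1
  refine ⟨?_, ?_, ?_⟩
  · nlinarith [sq_nonneg u.val.imI, sq_nonneg u.val.imJ, sq_nonneg u.val.imK]
  · nlinarith [sq_nonneg u.val.imI, sq_nonneg u.val.imJ, sq_nonneg u.val.imK]
  · nlinarith [sq_nonneg u.val.imI, sq_nonneg u.val.imJ, sq_nonneg u.val.imK]

/-- A pure quaternion orthogonal to the imaginary part of `X` conjugates `X` to its conjugate. -/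
theorem anti (g X : ℍ[ℚ]) (hg : g.re = 0) (h : g.imI * X.imI + g.imJ * X.imJ + g.imK * X.imK = 0) :
    g * X = star X * g := by
  ext <;> simp [hg] <;> linarith

theorem exists_anti (X Y : ℍ[ℚ]) : ∃ g : (ℍ[ℚ])ˣ, g.val * X = star X * g.val ∧ g.val * Y = star Y * g.val := by
  have hdet : (!![X.imI, X.imJ, X.imK; Y.imI, Y.imJ, Y.imK; 0, 0, 0] : Matrix (Fin 3) (Fin 3) ℚ).det = 0 := by
    simp [Matrix.det_fin_three]
  obtain ⟨v, hv0, hv⟩ := Matrix.exists_mulVec_eq_zero_iff.mpr hdet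
  have e0 := congrFun hv 0
  have e1 := congrFun hv 1
  simp only [Matrix.mulVec, dotProduct, Fin.sum_univ_three, Matrix.of_apply, Matrix.cons_val', Matrix.cons_val_zero,
    Matrix.cons_val_one, Matrix.cons_val_two, Pi.zero_apply] at e0 e1
  let g : ℍ[ℚ] := ⟨0, v 0, v 1, v 2⟩
  have hg : g ≠ 0 := by
    intro hg
    apply hv0
    ext i
    fin_cases i
    · exact congrArg QuaternionAlgebra.imI hg
    · exact congrArg QuaternionAlgebra.imJ hg
    · exact congrArg QuaternionAlgebra.imK hg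
  refine ⟨Units.mk0 g hg, anti _ _ rfl ?_, anti _ _ rfl ?_⟩
  · change v 0 * X.imI + v 1 * X.imJ + v 2 * X.imK = 0
    simp at e0
    linarith
  · change v 0 * Y.imI + v 1 * Y.imJ + v 2 * Y.imK = 0
    simp at e1
    linarith

theorem pair (X Y : (ℍ[ℚ])ˣ) : ∃ g : (ℍ[ℚ])ˣ, rot (g * X * g⁻¹ * X) = 1 ∧ rot (g * Y * g⁻¹ * Y) = 1 := by
  obtain ⟨g, hX, hY⟩ := exists_anti X.val Y.val
  have key : ∀ Z : (ℍ[ℚ])ˣ, g.val * Z.val = star Z.val * g.val → rot (g * Z * g⁻¹ * Z) = 1 := by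
    intro Z hZ
    have : (g * Z * g⁻¹ * Z).val = ((normSq Z.val : ℚ) : ℍ[ℚ]) := by
      rw [Units.val_mul, Units.val_mul, Units.val_mul, hZ, mul_assoc (star Z.val), Units.mul_inv, mul_one,
        star_mul_self]
      rfl
    refine rot_central _ ?_ ?_ ?_ <;> rw [this] <;> simp
  exact ⟨g, key X hX, key Y hY⟩

end Pool.Agent.Helper886.SR
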