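import Pool.Agent.Helper886.SR.Padic

set_option autoImplicit false
open Quaternion

namespace Pool.Agent.Helper886.SR

theorem perm3_comm : ∀ a b : Equiv.Perm (Fin 3), Equiv.Perm.sign a = 1 → Equiv.Perm.sign b = 1 → a * b = b * a := by
  decide

theorem perm3_solvable : Group.IsSolvable (Equiv.Perm (Fin 3)) := by
  have : Group.IsSolvable (Equiv.Perm.sign : Equiv.Perm (Fin 3) →* ℤˣ).ker := by
    apply Group.isSolvable_of_comm
    rintro ⟨a, ha⟩ ⟨b, hb⟩
    exact Subtype.ext (perm3_comm a b ha hb)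
  exact Group.isSolvable_of_ker_le_range (Equiv.Perm.sign : Equiv.Perm (Fin 3) →* ℤˣ).ker.subtype
    (Equiv.Perm.sign : Equiv.Perm (Fin 3) →* ℤˣ) (by simp)

/-- matrix of a permutation -/
def pm (σ : Equiv.Perm (Fin 3)) : Matrix (Fin 3) (Fin 3) (ZMod 2) := fun i j => if i = σ j then 1 else 0

theorem pm_mul : ∀ σ τ : Equiv.Perm (Fin 3), pm (σ * τ) = pm σ * pm τ := by
  decide

theorem pm_one : pm 1 = 1 := by decide

def pmHom : Equiv.Perm (Fin 3) →* Matrix (Fin 3) (Fin 3) (ZMod 2) where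
  toFun := pm
  map_one' := pm_one
  map_mul' := pm_mul

theorem orth2 : ∀ a b c d e f g h k : ZMod 2,
    !![a, b, c; d, e, f; g, h, k] * (!![a, b, c; d, e, f; g, h, k]).transpose = (1 : Matrix (Fin 3) (Fin 3) (ZMod 2)) →
    ∃ σ : Equiv.Perm (Fin 3), pm σ = !![a, b, c; d, e, f; g, h, k] := by
  decide

theorem orth (A : Matrix (Fin 3) (Fin 3) (ZMod 2)) (h : A * A.transpose = 1) : ∃ σ : Equiv.Perm (Fin 3), pm σ = A := by
  have : A = !![A 0 0, A 0 1, A 0 2; A 1 0, A 1 1, A 1 2; A 2 0, A 2 1, A 2 2] := by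
    ext i j
    fin_cases i <;> fin_cases j <;> rfl
  rw [this] at h ⊢
  exact orth2 _ _ _ _ _ _ _ _ _ h


/-- The finite groups. -/
noncomputable def Gp (n : ℕ) : Subgroup (Matrix (Fin 3) (Fin 3) (ZMod (2 ^ (n + 1))))ˣ := (red n).range

instance (n : ℕ) : NeZero (2 ^ (n + 1)) := ⟨pow_ne_zero _ two_ne_zero⟩

theorem even_of_cast (n : ℕ) (x : ZMod (2 ^ (n + 1)))
    (h : ZMod.castHom (dvd_pow_self 2 (Nat.succ_ne_zero n)) (ZMod 2) x = 0) : ∃ y, x = 2 * y := by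
  have h1 : ((x.val : ℕ) : ZMod (2 ^ (n + 1))) = x := ZMod.natCast_zmod_val x
  rw [← h1, map_natCast, ZMod.natCast_eq_zero_iff] at h
  obtain ⟨k, hk⟩ := h
  refine ⟨(k : ZMod (2 ^ (n + 1))), ?_⟩
  rw [← h1, hk]
  push_cast
  rfl

/-- mod 2 reduction of matrices -/
noncomputable def mod2 (n : ℕ) : Matrix (Fin 3) (Fin 3) (ZMod (2 ^ (n + 1))) →+* Matrix (Fin 3) (Fin 3) (ZMod 2) :=
  (ZMod.castHom (dvd_pow_self 2 (Nat.succ_ne_zero n)) (ZMod 2)).mapMatrix

theorem mat_even (n : ℕ) (B : Matrix (Fin 3) (Fin 3) (ZMod (2 ^ (n + 1)))) (h : mod2 n B = 0) :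
    ∃ C, B = (2 : Matrix (Fin 3) (Fin 3) (ZMod (2 ^ (n + 1)))) * C := by
  have h1 : ∀ i j, ∃ y, B i j = 2 * y := fun i j => even_of_cast n _ (congrFun (congrFun h i) j)
  choose C hC using h1
  refine ⟨Matrix.of C, ?_⟩
  ext i j
  rw [two_mul, Matrix.add_apply, Matrix.of_apply, hC, two_mul]

theorem pow_one_add (n : ℕ) (A : Matrix (Fin 3) (Fin 3) (ZMod (2 ^ (n + 1)))) (h : mod2 n A = 1) (k : ℕ) :
    ∃ C, A ^ (2 ^ k) = 1 + (2 : Matrix (Fin 3) (Fin 3) (ZMod (2 ^ (n + 1)))) ^ (k + 1) * C := by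
  induction k with
  | zero =>
    obtain ⟨C, hC⟩ := mat_even n (A - 1) (by rw [map_sub, h, map_one, sub_self])
    refine ⟨C, ?_⟩
    rw [pow_zero, pow_one, zero_add, pow_one, ← hC]
    abel
  | succ k ih =>
    obtain ⟨C, hC⟩ := ih
    refine ⟨C + 2 ^ k * (C * C), ?_⟩
    have hcomm : ∀ m : ℕ, ∀ D : Matrix (Fin 3) (Fin 3) (ZMod (2 ^ (n + 1))),
        D * 2 ^ m = 2 ^ m * D := by
      intro m D
      have : Commute D ((2 : Matrix (Fin 3) (Fin 3) (ZMod (2 ^ (n + 1)))) ^ m) := by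
        apply Commute.pow_right
        exact Commute.ofNat_right D 2
      exact this
    rw [pow_succ 2 k, pow_mul, hC, sq]
    have h1 : (2 : Matrix (Fin 3) (Fin 3) (ZMod (2 ^ (n + 1)))) ^ (k + 1) * C * (2 ^ (k + 1) * C) =
        2 ^ (k + 1 + 1) * (2 ^ k * (C * C)) := by
      rw [mul_assoc, ← mul_assoc C, hcomm, mul_assoc, ← mul_assoc, ← pow_add, ← mul_assoc (2 ^ (k + 1 + 1)), ← pow_add]
      congr 2
      ring
    have h2 : (2 : Matrix (Fin 3) (Fin 3) (ZMod (2 ^ (n + 1)))) ^ (k + 1 + 1) * C = 2 ^ (k + 1) * C + 2 ^ (k + 1) * C := by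
      rw [pow_succ _ (k + 1), mul_two, add_mul]
    rw [mul_add (2 ^ (k + 1 + 1)), h2, ← h1]
    noncomm_ring

theorem two_pow_zero (n : ℕ) : (2 : Matrix (Fin 3) (Fin 3) (ZMod (2 ^ (n + 1)))) ^ (n + 1) = 0 := by
  have h1 : (2 : ZMod (2 ^ (n + 1))) ^ (n + 1) = 0 := by
    have : ((2 ^ (n + 1) : ℕ) : ZMod (2 ^ (n + 1))) = 0 := ZMod.natCast_self _
    push_cast at this
    exact this
  have h2 : (2 : Matrix (Fin 3) (Fin 3) (ZMod (2 ^ (n + 1)))) ^ (n + 1) =
      Matrix.scalar (Fin 3) ((2 : ZMod (2 ^ (n + 1))) ^ (n + 1)) := by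
    rw [map_pow, map_ofNat]
  rw [h2, h1, map_zero]

theorem Gp_solvable (n : ℕ) : Group.IsSolvable (Gp n) := by
  let f : Gp n →* (Matrix (Fin 3) (Fin 3) (ZMod 2))ˣ := (Units.map (mod2 n).toMonoidHom).comp (Gp n).subtype
  have hker : IsPGroup 2 f.ker := by
    rintro ⟨x, hx⟩
    refine ⟨n, ?_⟩
    apply Subtype.ext
    apply Subtype.ext
    apply Units.ext
    have h1 : mod2 n x.val.val = 1 := congrArg Units.val hx
    obtain ⟨C, hC⟩ := pow_one_add n _ h1 n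
    rw [two_pow_zero, zero_mul, add_zero] at hC
    exact hC
  have hfin : Finite (Gp n) := inferInstance
  have : Fact (Nat.Prime 2) := ⟨Nat.prime_two⟩
  have hnil : Group.IsNilpotent f.ker := hker.isNilpotent
  have hsol : Group.IsSolvable f.ker := inferInstance
  let P : Equiv.Perm (Fin 3) →* (Matrix (Fin 3) (Fin 3) (ZMod 2))ˣ := pmHom.toHomUnits
  have hP : Group.IsSolvable P.range := by
    have := perm3_solvable
    exact Group.isSolvable_of_surjective P.rangeRestrict_surjective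
  have hle : f.range ≤ P.range := by
    rintro _ ⟨x, rfl⟩
    obtain ⟨u, hu⟩ := x.2
    have h1 : (f x).val = mod2 n (redM n u) := by
      change mod2 n x.val.val = _
      rw [← hu]
      rfl
    have h2 : (f x).val * ((f x).val).transpose = 1 := by
      rw [h1]
      have h3 := congrArg (mod2 n) (redM_mul_transpose n u)
      rw [map_mul, map_one] at h3
      exact h3
    obtain ⟨σ, hσ⟩ := orth _ h2
    exact ⟨σ, Units.ext hσ⟩
  have hr : Group.IsSolvable f.range :=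
    Group.isSolvable_of_isSolvable_injective (Subgroup.inclusion_injective hle)
  refine Group.isSolvable_of_ker_le_range f.ker.subtype f.rangeRestrict ?_
  rw [MonoidHom.ker_rangeRestrict, Subgroup.range_subtype]

theorem Gp_pair (n : ℕ) (x y : Gp n) : ∃ g : Gp n, g * x * g⁻¹ = x⁻¹ ∧ g * y * g⁻¹ = y⁻¹ := by
  obtain ⟨_, X, rfl⟩ := x
  obtain ⟨_, Y, rfl⟩ := y
  obtain ⟨g, h1, h2⟩ := pair X Y
  refine ⟨⟨red n g, g, rfl⟩, ?_, ?_⟩
  · rw [eq_inv_iff_mul_eq_one]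
    apply Subtype.ext
    change red n g * red n X * (red n g)⁻¹ * red n X = 1
    rw [← map_mul, ← map_inv, ← map_mul, ← map_mul]
    exact red_of_rot n _ h1
  · rw [eq_inv_iff_mul_eq_one]
    apply Subtype.ext
    change red n g * red n Y * (red n g)⁻¹ * red n Y = 1
    rw [← map_mul, ← map_inv, ← map_mul, ← map_mul]
    exact red_of_rot n _ h2

end Pool.Agent.Helper886.SR
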